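import Mathlib

/-!
# No lonely colour graphs have unbounded chromatic number (MP_2f2576_co)

For every `m` there is a finite graph with an edge colouring such that the edges of each colour are
pairwise disjoint, every circuit meets no colour exactly once, and the chromatic number exceeds `m`.

Construction. Let `X` be such a graph with chromatic number greater than `m`, together with a map
`f : V → (C → ℤ)` such that the endpoints of every edge differ in exactly one coordinate, the colour
of the edge. Take `S = (ι → V)` with `ι` large, as in the Hales-Jewett theorem for `m + 1` colours;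
for every combinatorial line `L` of `S` add a copy of `X` and join its vertex `g` to the point `L g`
of `S`, the edges of this perfect matching having a new colour belonging to `L`. A point `s` of `S`
gets the coordinates `∑ i, f (s i) k`; the vertex `g` in the copy belonging to `L` gets the
coordinates of `L g`. The endpoints of an edge `g g'` in a copy differ only in the colour of
`g g'` in `X`, since the coordinates change by a positive multiple of `f g k - f g' k`.
-/

set_option autoImplicit false

open SimpleGraph Combinatorics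

namespace Pool.Agent.Results.MP_2f2576_co.NoLonelyColour

/-- Condition (i): every vertex meets at most two edges of each colour. -/
def AtMostTwo {V C : Type} (X : SimpleGraph V) (c : Sym2 V → C) : Prop :=
  ∀ (v : V) (k : C), {e : Sym2 V | e ∈ X.edgeSet ∧ v ∈ e ∧ c e = k}.encard ≤ 2

/-- Condition (ii): in every circuit, at least two edges have the same colour. -/
def NoPied {V C : Type} (X : SimpleGraph V) (c : Sym2 V → C) : Prop :=
  ∀ (v : V) (p : X.Walk v v), p.IsCycle → ∃ e ∈ p.edges, ∃ e' ∈ p.edges, e ≠ e' ∧ c e = c e'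

/-- Condition (iii): in every circuit, each edge has the same colour as some other edge of that
circuit. -/
def NoLonely {V C : Type} (X : SimpleGraph V) (c : Sym2 V → C) : Prop :=
  ∀ (v : V) (p : X.Walk v v), p.IsCycle → ∀ e ∈ p.edges, ∃ e' ∈ p.edges, e' ≠ e ∧ c e' = c e

/-- No pied circuit graphs: some edge colouring satisfies (i) and (ii). -/
def NoPiedCircuitGraph {V : Type} (X : SimpleGraph V) : Prop :=
  ∃ (C : Type) (c : Sym2 V → C), AtMostTwo X c ∧ NoPied X c

/-- No lonely colour graphs: some edge colouring satisfies (i) and (iii). -/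
def NoLonelyColourGraph {V : Type} (X : SimpleGraph V) : Prop :=
  ∃ (C : Type) (c : Sym2 V → C), AtMostTwo X c ∧ NoLonely X c

/-- The endpoints of each edge differ in exactly one coordinate, and the edges at a vertex belong to
distinct coordinates. -/
structure Good {V K : Type} (X : SimpleGraph V) (f : V → K → ℤ) : Prop where
  one : ∀ u v, X.Adj u v → ∃ k, ∀ l, f u l ≠ f v l ↔ l = k
  proper : ∀ u v w k, X.Adj u v → X.Adj u w → f u k ≠ f v k → f u k ≠ f w k → v = w

/-- The edge colouring belonging to `f`: the set of the coordinates in which the endpoints of the edge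
differ. -/
def col {V K : Type} (f : V → K → ℤ) (e : Sym2 V) : Set K :=
  {k | ∃ a b, e = s(a, b) ∧ f a k ≠ f b k}

theorem mem_col {V K : Type} (f : V → K → ℤ) (a b : V) (k : K) :
    k ∈ col f s(a, b) ↔ f a k ≠ f b k := by
  constructor
  · rintro ⟨x, y, h, hk⟩
    rcases Sym2.eq_iff.1 h with ⟨rfl, rfl⟩ | ⟨rfl, rfl⟩
    · exact hk
    · exact hk.symm
  · intro h
    exact ⟨a, b, rfl, h⟩

theorem col_eq {V K : Type} {X : SimpleGraph V} {f : V → K → ℤ} (h : Good X f) {a b : V}
    (hab : X.Adj a b) : ∃ k, col f s(a, b) = {k} := by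
  obtain ⟨k, hk⟩ := h.one a b hab
  refine ⟨k, ?_⟩
  ext l
  rw [mem_col, hk, Set.mem_singleton_iff]

theorem inj_at {V K : Type} {X : SimpleGraph V} {f : V → K → ℤ} (h : Good X f) (v : V)
    (e e' : Sym2 V) (he : e ∈ X.edgeSet) (he' : e' ∈ X.edgeSet) (hv : v ∈ e) (hv' : v ∈ e')
    (hc : col f e = col f e') : e = e' := by
  obtain ⟨a, rfl⟩ := hv
  obtain ⟨b, rfl⟩ := hv'
  rw [mem_edgeSet] at he he'
  obtain ⟨k, hk⟩ := col_eq h he
  have h1 : k ∈ col f s(v, a) := by rw [hk]; rfl
  have h2 : k ∈ col f s(v, b) := by rw [← hc, hk]; rfl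
  rw [mem_col] at h1 h2
  rw [h.proper v a b k he he' h1 h2]

/-- Along a trail which uses the coordinate `k` only in the edge `e`, the coordinate changes. -/
theorem trail_change {V K : Type} {X : SimpleGraph V} {f : V → K → ℤ} (k : K) (e : Sym2 V)
    (hke : k ∈ col f e) {u v : V} (p : X.Walk u v) (hp : p.edges.Nodup)
    (hother : ∀ e' ∈ p.edges, e' ≠ e → k ∉ col f e') :
    (e ∈ p.edges → f u k ≠ f v k) ∧ (e ∉ p.edges → f u k = f v k) := by
  induction p with
  | nil => simp
  | @cons a b c hab q ih =>
    rw [Walk.edges_cons, List.nodup_cons] at hp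
    have ih' := ih hp.2 (fun e' he' hne => hother e' (by
      rw [Walk.edges_cons]; exact List.mem_cons_of_mem _ he') hne)
    rw [Walk.edges_cons]
    by_cases h : s(a, b) = e
    · have hq : e ∉ q.edges := by rw [← h]; exact hp.1
      have h1 : f b k = f c k := ih'.2 hq
      have h2 : f a k ≠ f b k := by rw [← mem_col, h]; exact hke
      refine ⟨fun _ => by rw [← h1]; exact h2, fun hn => ?_⟩
      exact absurd (by rw [h]; exact List.mem_cons_self) hn
    · have h2 : f a k = f b k := by
        have := hother s(a, b) (by rw [Walk.edges_cons]; exact List.mem_cons_self) h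
        rw [mem_col, not_not] at this
        exact this
      rw [h2]
      refine ⟨fun hm => ih'.1 ?_, fun hn => ih'.2 fun hm => hn (List.mem_cons_of_mem _ hm)⟩
      rcases List.mem_cons.1 hm with h3 | h3
      · exact absurd h3.symm h
      · exact h3

theorem noLonely {V K : Type} {X : SimpleGraph V} {f : V → K → ℤ} (h : Good X f) :
    NoLonely X (col f) := by
  intro v p hp e he
  by_contra hcon
  push Not at hcon
  have heX : e ∈ X.edgeSet := p.edges_subset_edgeSet he
  induction e using Sym2.ind with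
  | _ a b =>
    rw [mem_edgeSet] at heX
    obtain ⟨k, hk⟩ := col_eq h heX
    have hke : k ∈ col f s(a, b) := by rw [hk]; rfl
    refine (trail_change (X := X) k s(a, b) hke p hp.isTrail.edges_nodup ?_).1 he rfl
    intro e' he' hne hk'
    apply hcon e' he' hne
    have heX' : e' ∈ X.edgeSet := p.edges_subset_edgeSet he'
    induction e' using Sym2.ind with
    | _ x y =>
      rw [mem_edgeSet] at heX'
      obtain ⟨l, hl⟩ := col_eq h heX'
      rw [hl, Set.mem_singleton_iff] at hk'
      rw [hl, hk, hk']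

/-! ### The construction -/

section Step

variable {V K ι : Type} [Fintype ι] (X : SimpleGraph V) (f : V → K → ℤ)

/-- The graph: the points of `ι → V`, and a copy of `X` for every line, matched with the points of
the line. -/
def stepGraph : SimpleGraph ((ι → V) ⊕ (Line V ι × V)) where
  Adj
    | Sum.inl _, Sum.inl _ => False
    | Sum.inl s, Sum.inr q => (q.1 : V → ι → V) q.2 = s
    | Sum.inr q, Sum.inl s => (q.1 : V → ι → V) q.2 = s
    | Sum.inr q, Sum.inr q' => q.1 = q'.1 ∧ X.Adj q.2 q'.2
  symm := ⟨by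
    rintro (s | q) (s' | q') h
    · exact h
    · exact h
    · exact h
    · exact ⟨h.1.symm, h.2.symm⟩⟩
  loopless := ⟨by
    rintro (s | q) h
    · exact h
    · exact X.loopless.irrefl _ h.2⟩

open Classical in
/-- The coordinates. -/
noncomputable def stepMap : (ι → V) ⊕ (Line V ι × V) → K ⊕ Line V ι → ℤ
  | Sum.inl s, Sum.inl k => ∑ i, f (s i) k
  | Sum.inl _, Sum.inr _ => 0
  | Sum.inr q, Sum.inl k => ∑ i, f ((q.1 : V → ι → V) q.2 i) k
  | Sum.inr q, Sum.inr L => if L = q.1 then 1 else 0

theorem line_sum (L : Line V ι) (g g' : V) (k : K) :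
    (∑ i, f ((L : V → ι → V) g i) k) - ∑ i, f ((L : V → ι → V) g' i) k =
      ((Finset.univ.filter fun i => L.idxFun i = none).card : ℤ) * (f g k - f g' k) := by
  rw [← Finset.sum_sub_distrib, ← nsmul_eq_mul, ← Finset.sum_const, Finset.sum_filter]
  refine Finset.sum_congr rfl fun i _ => ?_
  by_cases h : L.idxFun i = none
  · rw [if_pos h, Line.apply_none _ _ _ h, Line.apply_none _ _ _ h]
  · rw [if_neg h]
    obtain ⟨y, hy⟩ := Option.ne_none_iff_exists'.1 h
    rw [Line.apply_some hy, Line.apply_some hy, sub_self]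

theorem line_ne (L : Line V ι) (g g' : V) (k : K) :
    (∑ i, f ((L : V → ι → V) g i) k) ≠ (∑ i, f ((L : V → ι → V) g' i) k) ↔ f g k ≠ f g' k := by
  have h := line_sum f L g g' k
  have hpos : ((Finset.univ.filter fun i => L.idxFun i = none).card : ℤ) ≠ 0 := by
    obtain ⟨i, hi⟩ := L.proper
    have : 0 < (Finset.univ.filter fun i => L.idxFun i = none).card :=
      Finset.card_pos.2 ⟨i, Finset.mem_filter.2 ⟨Finset.mem_univ _, hi⟩⟩
    exact_mod_cast this.ne'
  rw [not_iff_not, ← sub_eq_zero, h, mul_eq_zero, or_iff_right hpos, sub_eq_zero]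

omit [Fintype ι] in
theorem line_inj (L : Line V ι) {g g' : V} (h : (L : V → ι → V) g = (L : V → ι → V) g') :
    g = g' := by
  obtain ⟨i, hi⟩ := L.proper
  have := congrFun h i
  rwa [Line.apply_none _ _ _ hi, Line.apply_none _ _ _ hi] at this

variable {X f}

theorem step_good (h : Good X f) : Good (stepGraph (ι := ι) X) (stepMap (ι := ι) f) := by
  have key : ∀ (L : Line V ι) (g : V) (s : ι → V), (L : V → ι → V) g = s →
      ∀ l, stepMap (ι := ι) f (Sum.inl s) l ≠ stepMap (ι := ι) f (Sum.inr (L, g)) l ↔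
        l = Sum.inr L := by
    rintro L g s rfl (k | M)
    · simp [stepMap]
    · simp only [stepMap, Sum.inr.injEq]
      by_cases hM : M = L
      · simp [hM]
      · simp [hM]
  have key2 : ∀ (L : Line V ι) (g g' : V) (k : K), (∀ l, f g l ≠ f g' l ↔ l = k) →
      ∀ l, stepMap (ι := ι) f (Sum.inr (L, g)) l ≠ stepMap (ι := ι) f (Sum.inr (L, g')) l ↔
        l = Sum.inl k := by
    rintro L g g' k hk (l | M)
    · simp only [stepMap, Sum.inl.injEq]
      rw [line_ne, hk]
    · simp [stepMap]
  constructor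
  · rintro (s | ⟨L, g⟩) (s' | ⟨L', g'⟩) hadj
    · exact hadj.elim
    · exact ⟨Sum.inr L', key L' g' s hadj⟩
    · refine ⟨Sum.inr L, fun l => ?_⟩
      rw [ne_comm]
      exact key L g s' hadj l
    · obtain ⟨h1, h2⟩ := hadj
      obtain rfl : L = L' := h1
      obtain ⟨k, hk⟩ := h.one g g' h2
      exact ⟨Sum.inl k, key2 L g g' k hk⟩
  · rintro (s | ⟨L, g⟩) (s₁ | ⟨L₁, g₁⟩) (s₂ | ⟨L₂, g₂⟩) k h1 h2 hk1 hk2
    · exact h1.elim
    · exact h1.elim
    · exact h2.elim
    · rw [key L₁ g₁ s h1] at hk1
      rw [key L₂ g₂ s h2, hk1, Sum.inr.injEq] at hk2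
      subst hk2
      have : g₁ = g₂ := line_inj L₁ (Eq.trans h1 (Eq.symm h2))
      rw [this]
    · have e1 : (L : V → ι → V) g = s₁ := h1
      have e2 : (L : V → ι → V) g = s₂ := h2
      rw [← e1, ← e2]
    · rw [ne_comm, key L g s₁ h1] at hk1
      obtain ⟨h3, h4⟩ := h2
      obtain rfl : L = L₂ := h3
      obtain ⟨c, hc⟩ := h.one g g₂ h4
      rw [key2 L g g₂ c hc, hk1] at hk2
      exact absurd hk2 (by simp)
    · rw [ne_comm, key L g s₂ h2] at hk2
      obtain ⟨h3, h4⟩ := h1
      obtain rfl : L = L₁ := h3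
      obtain ⟨c, hc⟩ := h.one g g₁ h4
      rw [key2 L g g₁ c hc, hk2] at hk1
      exact absurd hk1 (by simp)
    · obtain ⟨h3, h4⟩ := h1
      obtain rfl : L = L₁ := h3
      obtain ⟨h5, h6⟩ := h2
      obtain rfl : L = L₂ := h5
      obtain ⟨c, hc⟩ := h.one g g₁ h4
      obtain ⟨d, hd⟩ := h.one g g₂ h6
      rw [key2 L g g₁ c hc] at hk1
      rw [key2 L g g₂ d hd, hk1, Sum.inl.injEq] at hk2
      subst hk2
      have : g₁ = g₂ := h.proper g g₁ g₂ c h4 h6 ((hc c).2 rfl) ((hd c).2 rfl)
      rw [this]

omit [Fintype ι] in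
theorem step_not_colorable {m : ℕ} (hX : ¬ X.Colorable m)
    (hι : ∀ C : (ι → V) → Fin (m + 1), ∃ l : Line V ι, l.IsMono C) :
    ¬ (stepGraph (ι := ι) X).Colorable (m + 1) := by
  rintro ⟨c⟩
  obtain ⟨L, a, ha⟩ := hι fun s => c (Sum.inl s)
  apply hX
  have hne : ∀ g : V, c (Sum.inr (L, g)) ≠ a := by
    intro g
    rw [← ha g]
    exact (c.valid (show (stepGraph (ι := ι) X).Adj (Sum.inl ((L : V → ι → V) g))
      (Sum.inr (L, g)) from rfl)).symm
  let c' : X.Coloring {x : Fin (m + 1) // x ≠ a} :=
    Coloring.mk (fun g => ⟨c (Sum.inr (L, g)), hne g⟩) (by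
      intro u v huv heq
      exact c.valid (show (stepGraph (ι := ι) X).Adj (Sum.inr (L, u)) (Sum.inr (L, v)) from
        ⟨rfl, huv⟩) (congrArg Subtype.val heq))
  have := c'.colorable
  simpa using this

end Step

theorem exists_good (m : ℕ) : ∃ (V K : Type) (_ : Finite V) (X : SimpleGraph V) (f : V → K → ℤ),
    Good X f ∧ ¬ X.Colorable m := by
  induction m with
  | zero =>
    refine ⟨Unit, Unit, inferInstance, ⊥, fun _ _ => 0, ⟨fun u v h => h.elim, fun u v w k h =>
      h.elim⟩, ?_⟩
    rintro ⟨c⟩
    exact (c ()).elim0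
  | succ m ih =>
    obtain ⟨V, K, _, X, f, hf, hX⟩ := ih
    obtain ⟨ι, _, hι⟩ := Line.exists_mono_in_high_dimension V (Fin (m + 1))
    have : Finite (Line V ι) := by
      apply Finite.of_injective (fun L : Line V ι => L.idxFun)
      rintro ⟨a, ha⟩ ⟨b, hb⟩ h
      obtain rfl : a = b := h
      rfl
    exact ⟨(ι → V) ⊕ (Line V ι × V), K ⊕ Line V ι, inferInstance, stepGraph X, stepMap f,
      step_good hf, step_not_colorable hX hι⟩

/-- For every `m` there is a finite graph `X` of chromatic number greater than `m` with an edge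
colouring such that every vertex meets at most one edge of each colour and in every circuit each edge
has the same colour as some other edge of the circuit. In particular `X` is a no lonely colour graph
and a no pied circuit graph. -/
theorem result (m : ℕ) : ∃ (V : Type) (_ : Finite V) (X : SimpleGraph V),
    (m : ℕ∞) < X.chromaticNumber ∧ NoLonelyColourGraph X ∧ NoPiedCircuitGraph X ∧
    ∃ (C : Type) (c : Sym2 V → C),
      (∀ (v : V) (e e' : Sym2 V), e ∈ X.edgeSet → e' ∈ X.edgeSet → v ∈ e → v ∈ e' → c e = c e' →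
        e = e') ∧ NoLonely X c := by
  obtain ⟨V, K, hV, X, f, hf, hX⟩ := exists_good m
  have h2 : AtMostTwo X (col f) := by
    intro v k
    refine le_trans (Set.encard_le_one_iff.2 ?_) (by norm_num)
    rintro e e' ⟨h1, h2, h3⟩ ⟨h4, h5, h6⟩
    exact inj_at hf v e e' h1 h4 h2 h5 (h3.trans h6.symm)
  have h3 := noLonely hf
  refine ⟨V, hV, X, ?_, ⟨Set K, col f, h2, h3⟩, ⟨Set K, col f, h2, ?_⟩, Set K, col f,
    inj_at hf, h3⟩
  · rw [← not_le]
    intro h
    exact hX (chromaticNumber_le_iff_colorable.1 h)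
  · intro v p hp
    obtain ⟨e, he⟩ : ∃ e, e ∈ p.edges := by
      cases p with
      | nil => exact absurd hp (by simp)
      | cons h q => exact ⟨_, List.mem_cons_self⟩
    obtain ⟨e', he', hne, hc⟩ := h3 v p hp e he
    exact ⟨e, he, e', he', hne.symm, hc.symm⟩

end Pool.Agent.Results.MP_2f2576_co.NoLonelyColour
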